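import Pool.Agent.H62.LP.T1

/-!
Loop percolation in dimension three, row GLO: lower bound of the Green function.
-/

set_option autoImplicit false

open MeasureTheory ProbabilityTheory Filter Topology
open scoped ENNReal NNReal

namespace Pool.Agent.H74.LP

open Pool.Agent.H62.LP

/-- first step of the walk -/
theorem Hk_step {V : Type} (q : V → V → ℝ≥0∞) (x y : V) :
    Hk q x y = q x y + ∑' z, q x z * Hk q z y := by
  classical
  unfold Hk
  rw [ENNReal.tsum_eq_add_tsum_ite ([] : List V)]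
  congr 1
  · simp
  · set F : List V → ℝ≥0∞ := fun t => if t = [] then 0 else wt q x (t ++ [y]) with hF
    have hinj : Function.Injective (fun p : V × List V => p.1 :: p.2) := by
      rintro ⟨a, s⟩ ⟨b, t⟩ h
      simp only [List.cons.injEq] at h
      rw [h.1, h.2]
    have hsup : Function.support F ⊆ Set.range (fun p : V × List V => p.1 :: p.2) := by
      intro t ht
      cases t with
      | nil => exact absurd (by simp [hF]) ht
      | cons a t => exact ⟨(a, t), rfl⟩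
    have e : ∑' t, F t = ∑' z, q x z * ∑' t : List V, wt q z (t ++ [y]) := by
      rw [← hinj.tsum_eq hsup, ENNReal.tsum_prod']
      refine tsum_congr fun z => ?_
      rw [← ENNReal.tsum_mul_left]
      refine tsum_congr fun t => ?_
      simp [hF]
    rw [← e]
    refine tsum_congr fun t => ?_
    by_cases ht : t = [] <;> simp [hF, ht]

theorem Hk_eq {V : Type} (q : V → V → ℝ≥0∞) (x y : V) :
    Hk q x y = ∑' z, q x z * Gk q z y := by
  classical
  rw [Hk_step]
  unfold Gk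
  simp only [mul_add, ENNReal.tsum_add]
  congr 1
  rw [tsum_eq_single y]
  · simp
  · intro z hz
    simp [hz]

theorem pot_step {V : Type} (q : V → V → ℝ≥0∞) (H : V → ℝ≥0∞) (x : V) :
    ∑' y, Gk q x y * H y = H x + ∑' z, q x z * ∑' y, Gk q z y * H y := by
  classical
  have h1 : ∀ y, Gk q x y * H y = (if x = y then 1 else 0) * H y +
      ∑' z, q x z * (Gk q z y * H y) := by
    intro y
    have h2 : Gk q x y = (if x = y then 1 else 0) + Hk q x y := by
      unfold Gk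
      congr
    rw [h2, add_mul, Hk_eq q x y, ← ENNReal.tsum_mul_right]
    simp only [mul_assoc]
  simp only [h1, ENNReal.tsum_add]
  congr 1
  · rw [tsum_eq_single x]
    · simp
    · intro y hy
      simp [Ne.symm hy]
  · rw [ENNReal.tsum_comm]
    refine tsum_congr fun z => ?_
    rw [ENNReal.tsum_mul_left]

theorem nm_le_iff_loc {d : ℕ} (x : Vt d) (r : ℕ) : nm x ≤ r ↔ ∀ i, (x i).natAbs ≤ r := by
  unfold nm
  rw [Finset.sup_le_iff]
  exact ⟨fun h i => h i (Finset.mem_univ i), fun h i _ => h i⟩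

theorem nm_tri (x y : V3) : nm x ≤ nm (x - y) + nm y := by
  rw [nm_le_iff_loc]
  intro i
  have h1 := (nm_le_iff_loc (x - y) _).mp le_rfl i
  have h2 := (nm_le_iff_loc y _).mp le_rfl i
  rw [Pi.sub_apply] at h1
  omega

theorem nm_mul (x y : V3) : (1 + (nm x : ℝ)) ≤ (1 + (nm (x - y) : ℝ)) * (1 + (nm y : ℝ)) := by
  have h1 : (nm x : ℝ) ≤ (nm (x - y) : ℝ) + (nm y : ℝ) := by exact_mod_cast nm_tri x y
  have h2 : (0 : ℝ) ≤ (nm (x - y) : ℝ) := Nat.cast_nonneg _
  have h3 : (0 : ℝ) ≤ (nm y : ℝ) := Nat.cast_nonneg _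
  nlinarith [mul_nonneg h2 h3]

/-- the weights -/
noncomputable def ww (y : V3) : ℝ≥0∞ := ENNReal.ofReal (1 / (1 + (nm y : ℝ)) ^ 4)

theorem ww_sum (hCNT : T_CNT) : ∑' y, ww y ≠ ⊤ := by
  rw [← (Equiv.sigmaFiberEquiv (fun y : V3 => nm y)).tsum_eq, ENNReal.tsum_sigma']
  have hfin : ∀ k : ℕ, {y : V3 | nm y = k}.Finite := by
    intro k
    refine (hCNT.1 0 k).1.subset fun y hy => ?_
    have hy' : nm y = k := hy
    change nm (y - 0) ≤ k
    rw [sub_zero, hy']
  have hk : ∀ k : ℕ, ∑' y : {y : V3 // nm y = k},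
      ww ((Equiv.sigmaFiberEquiv (fun y : V3 => nm y)) ⟨k, y⟩) ≤
      ENNReal.ofReal (26 / ((k : ℝ) + 1) ^ 2) := by
    intro k
    have hF : Finite {y : V3 // nm y = k} := hfin k
    have := Fintype.ofFinite {y : V3 // nm y = k}
    have h1 : ∀ y : {y : V3 // nm y = k},
        ww ((Equiv.sigmaFiberEquiv (fun y : V3 => nm y)) ⟨k, y⟩) =
        ENNReal.ofReal (1 / (1 + (k : ℝ)) ^ 4) := by
      intro y
      change ww y.1 = _
      unfold ww
      rw [y.2]
    simp only [h1]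
    rw [tsum_fintype, Finset.sum_const, Finset.card_univ, nsmul_eq_mul]
    have h2 : (Fintype.card {y : V3 // nm y = k} : ℝ) ≤ 26 * ((k : ℝ) + 1) ^ 2 := by
      have h3 := hCNT.2 0 k
      simp only [sub_zero] at h3
      have h4 : Fintype.card {y : V3 // nm y = k} = {y : V3 | nm y = k}.ncard := by
        rw [← Nat.card_eq_fintype_card]
        exact Nat.card_coe_set_eq _
      rw [h4]
      exact_mod_cast h3
    have h5 : ((Fintype.card {y : V3 // nm y = k} : ℕ) : ℝ≥0∞) =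
        ENNReal.ofReal (Fintype.card {y : V3 // nm y = k} : ℝ) := by
      rw [ENNReal.ofReal_natCast]
    rw [h5, ← ENNReal.ofReal_mul (Nat.cast_nonneg _)]
    apply ENNReal.ofReal_le_ofReal
    have hk0 : (0 : ℝ) < (k : ℝ) + 1 := by positivity
    rw [mul_one_div, div_le_div_iff₀ (by positivity) (by positivity)]
    have e : (1 + (k : ℝ)) ^ 4 = ((k : ℝ) + 1) ^ 2 * ((k : ℝ) + 1) ^ 2 := by ring
    rw [e]
    calc (Fintype.card {y : V3 // nm y = k} : ℝ) * ((k : ℝ) + 1) ^ 2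
        ≤ (26 * ((k : ℝ) + 1) ^ 2) * ((k : ℝ) + 1) ^ 2 :=
          mul_le_mul_of_nonneg_right h2 (by positivity)
      _ = 26 * (((k : ℝ) + 1) ^ 2 * ((k : ℝ) + 1) ^ 2) := by ring
  have hs : Summable (fun k : ℕ => 26 / ((k : ℝ) + 1) ^ 2) := by
    have h1 : Summable (fun k : ℕ => 1 / (k : ℝ) ^ 2) :=
      Real.summable_one_div_nat_pow.mpr (by norm_num)
    have h2 := ((summable_nat_add_iff 1).mpr h1).mul_left 26
    refine h2.congr fun k => ?_
    push_cast
    ring
  exact ne_top_of_le_ne_top hs.tsum_ofReal_ne_top (ENNReal.tsum_le_tsum hk)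

/-- comparison of the values at two neighbours -/
theorem Gr_nb (hGTR : T_GTR) (x y y' : V3) (h : Adj y' y) :
    Gr x y ≤ 6 * Gr x y' := by
  have h1 : Q y' y * Gk Q y x ≤ Gr y' x := by
    have h2 : Q y' y * Gk Q y x ≤ Hk Q y' x := by
      rw [Hk_eq Q y' x]
      exact ENNReal.le_tsum (f := fun z => Q y' z * Gk Q z x) y
    refine h2.trans ?_
    unfold Gr Gk
    exact le_add_self
  have h3 : (Q y' y : ℝ≥0∞) = (6 : ℝ≥0∞)⁻¹ := by
    unfold Q
    rw [if_pos h]
    norm_num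
  rw [h3] at h1
  rw [(hGTR x y 0).2, (hGTR x y' 0).2]
  calc Gr y x = 6 * ((6 : ℝ≥0∞)⁻¹ * Gk Q y x) := by
        rw [← mul_assoc, ENNReal.mul_inv_cancel (by norm_num) (by norm_num), one_mul]
    _ ≤ 6 * Gr y' x := mul_le_mul_right h1 6

theorem Gr_path (hGTR : T_GTR) (n : ℕ) : ∀ y : V3,
    ∑ i, (y i).natAbs = n → ∀ x, Gr x y ≤ 6 ^ n * Gr x 0 := by
  induction n with
  | zero =>
    intro y hy x
    have h0 : y = 0 := by
      funext i
      have := (Finset.sum_eq_zero_iff.mp hy) i (Finset.mem_univ i)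
      simpa using this
    rw [h0]
    simp
  | succ n ih =>
    intro y hy x
    have hex : ∃ i, y i ≠ 0 := by
      by_contra hcon
      push Not at hcon
      have : ∑ i, (y i).natAbs = 0 := Finset.sum_eq_zero fun i _ => by rw [hcon i]; rfl
      omega
    obtain ⟨i, hi⟩ := hex
    set y' : V3 := Function.update y i (y i - (y i).sign) with hy'
    have hi' : y' i = y i - (y i).sign := by rw [hy', Function.update_self]
    have hj' : ∀ j, j ≠ i → y' j = y j := by
      intro j hj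
      rw [hy', Function.update_of_ne hj]
    have hsign : (y i).sign = 1 ∧ 0 < y i ∨ (y i).sign = -1 ∧ y i < 0 := by
      rcases lt_or_gt_of_ne hi with h | h
      · right
        exact ⟨Int.sign_eq_neg_one_of_neg h, h⟩
      · left
        exact ⟨Int.sign_eq_one_of_pos h, h⟩
    have hadj : Adj y' y := by
      unfold Adj
      rw [Finset.sum_eq_single i]
      · rw [hi']
        rcases hsign with ⟨h, -⟩ | ⟨h, -⟩ <;> rw [h] <;> simp
      · intro j _ hj
        rw [hj' j hj]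
        simp
      · intro h
        exact absurd (Finset.mem_univ i) h
    have hsum : ∑ j, (y' j).natAbs = n := by
      have h1 : ∑ j, (y j).natAbs = (y i).natAbs + ∑ j ∈ Finset.univ.erase i, (y j).natAbs :=
        (Finset.add_sum_erase _ _ (Finset.mem_univ i)).symm
      have h2 : ∑ j, (y' j).natAbs = (y' i).natAbs + ∑ j ∈ Finset.univ.erase i, (y' j).natAbs :=
        (Finset.add_sum_erase _ _ (Finset.mem_univ i)).symm
      have h3 : ∑ j ∈ Finset.univ.erase i, (y' j).natAbs =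
          ∑ j ∈ Finset.univ.erase i, (y j).natAbs :=
        Finset.sum_congr rfl fun j hj => by rw [hj' j (Finset.ne_of_mem_erase hj)]
      rw [h2, h3, hi']
      rw [h1] at hy
      rcases hsign with ⟨h, h4⟩ | ⟨h, h4⟩ <;> rw [h] <;> omega
    calc Gr x y ≤ 6 * Gr x y' := Gr_nb hGTR x y y' hadj
      _ ≤ 6 * (6 ^ n * Gr x 0) := mul_le_mul_right (ih y' hsum x) 6
      _ = 6 ^ (n + 1) * Gr x 0 := by rw [pow_succ]; ring

theorem avg_sub (f g : V3 → ℝ) (x : V3) :
    avg (fun y => f y - g y) x = avg f x - avg g x := by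
  unfold avg
  rw [← sub_div, ← Finset.sum_sub_distrib]
  congr 1
  refine Finset.sum_congr rfl fun i _ => ?_
  ring

theorem sum_sq_le (x : V3) : ∑ i, (x i : ℝ) ^ 2 ≤ 3 * (nm x : ℝ) ^ 2 := by
  have h : ∀ i, (x i : ℝ) ^ 2 ≤ (nm x : ℝ) ^ 2 := by
    intro i
    have h1 := (nm_le_iff_loc x _).mp le_rfl i
    have h2 : |(x i : ℝ)| ≤ (nm x : ℝ) := by
      have h3 : |(x i : ℝ)| = ((x i).natAbs : ℝ) := by
        rw [Nat.cast_natAbs, Int.cast_abs]
      rw [h3]
      exact_mod_cast h1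
    rw [← sq_abs (x i : ℝ)]
    exact pow_le_pow_left₀ (abs_nonneg _) h2 2
  calc ∑ i, (x i : ℝ) ^ 2 ≤ ∑ i : Fin 3, (nm x : ℝ) ^ 2 := Finset.sum_le_sum fun i _ => h i
    _ = 3 * (nm x : ℝ) ^ 2 := by simp

theorem ff_low (K : ℝ) (hK : 1 ≤ K) (x : V3) : 1 / (K + 3) / (1 + (nm x : ℝ)) ≤ ff K x := by
  unfold ff
  have hn : (0 : ℝ) ≤ (nm x : ℝ) := Nat.cast_nonneg _
  have h1 := sum_sq_le x
  have h0 : 0 ≤ ∑ i, (x i : ℝ) ^ 2 := Finset.sum_nonneg fun i _ => sq_nonneg _
  have h2 : Real.sqrt (K + ∑ i, (x i : ℝ) ^ 2) ≤ (K + 3) * (1 + (nm x : ℝ)) := by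
    apply Real.sqrt_le_iff.mpr
    refine ⟨by positivity, ?_⟩
    have h3 : (K + 3) ^ 2 * (1 + (nm x : ℝ)) ^ 2 ≥ K + 3 * (nm x : ℝ) ^ 2 := by
      have h4 : (1 + (nm x : ℝ)) ^ 2 ≥ 1 + (nm x : ℝ) ^ 2 := by nlinarith
      have h5 : (K + 3) ^ 2 ≥ K + 3 := by nlinarith
      have h6 : (K + 3) ^ 2 * (1 + (nm x : ℝ)) ^ 2 ≥ (K + 3) * (1 + (nm x : ℝ) ^ 2) :=
        mul_le_mul h5 h4 (by positivity) (by positivity)
      nlinarith [mul_nonneg (by linarith : (0 : ℝ) ≤ K) (sq_nonneg (nm x : ℝ))]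
    rw [mul_pow]
    linarith
  rw [div_div]
  exact one_div_le_one_div_of_le (Real.sqrt_pos.mpr (by linarith)) h2

theorem ff_fin (hCNT : T_CNT) (K : ℝ) (hK : 1 ≤ K) (δ : ℝ) (hδ : 0 < δ) :
    {x : V3 | δ ≤ ff K x}.Finite := by
  refine (hCNT.1 0 ⌈1 / δ⌉₊).1.subset fun x hx => ?_
  have hx' : δ ≤ ff K x := hx
  change nm (x - 0) ≤ _
  rw [sub_zero, nm_le_iff_loc]
  intro i
  unfold ff at hx'
  have h0 : 0 ≤ ∑ i, (x i : ℝ) ^ 2 := Finset.sum_nonneg fun i _ => sq_nonneg _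
  have hs : 0 < Real.sqrt (K + ∑ i, (x i : ℝ) ^ 2) := Real.sqrt_pos.mpr (by linarith)
  have h1 : Real.sqrt (K + ∑ i, (x i : ℝ) ^ 2) ≤ 1 / δ := by
    rw [le_div_iff₀ hs] at hx'
    rw [le_div_iff₀ hδ]
    linarith
  have h2 : |(x i : ℝ)| ≤ Real.sqrt (K + ∑ i, (x i : ℝ) ^ 2) := by
    apply Real.le_sqrt_of_sq_le
    rw [sq_abs]
    have h3 : (x i : ℝ) ^ 2 ≤ ∑ i, (x i : ℝ) ^ 2 :=
      Finset.single_le_sum (f := fun i => (x i : ℝ) ^ 2) (fun j _ => sq_nonneg _)
        (Finset.mem_univ i)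
    linarith
  have h4 : ((x i).natAbs : ℝ) ≤ (⌈1 / δ⌉₊ : ℝ) := by
    have h3 : |(x i : ℝ)| = ((x i).natAbs : ℝ) := by
      rw [Nat.cast_natAbs, Int.cast_abs]
    rw [← h3]
    exact (h2.trans h1).trans (Nat.le_ceil _)
  exact_mod_cast h4

/-- row GLO -/
theorem pf_GLO (hLAP : T_LAP) (hMAX : T_MAX) (hQAV : T_QAV) (hGUP : T_GUP) (hGTR : T_GTR)
    (hCNT : T_CNT) : T_GLO := by
  classical
  obtain ⟨K, C, hK, hC, -, hlap⟩ := hLAP
  obtain ⟨C1, hC1, hgup⟩ := hGUP
  set h : V3 → ℝ := fun x => ff K x - avg (ff K) x with hh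
  set H : V3 → ℝ≥0∞ := fun x => ENNReal.ofReal (h x) with hH
  set A : ℝ := (C1 : ℝ) * C with hA
  have hC1r : (1 : ℝ) ≤ (C1 : ℝ) := by exact_mod_cast hC1
  have hA0 : 0 < A := by positivity
  have hn0 : ∀ x : V3, (0 : ℝ) < 1 + (nm x : ℝ) := fun x => by positivity
  -- the bound of the terms
  have hterm : ∀ x y, Gr x y * H y ≤ ENNReal.ofReal (A / (1 + (nm x : ℝ))) * ww y := by
    intro x y
    have h1 : Gr x y ≤ ENNReal.ofReal ((C1 : ℝ) / (1 + (nm (x - y) : ℝ))) := by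
      refine (hgup x y).trans (le_of_eq ?_)
      rw [ENNReal.ofReal_div_of_pos (hn0 _), ENNReal.ofReal_coe_nnreal]
      congr 1
      rw [ENNReal.ofReal_add zero_le_one (Nat.cast_nonneg _), ENNReal.ofReal_one,
        ENNReal.ofReal_natCast]
      push_cast
      rfl
    have h2 : H y ≤ ENNReal.ofReal (C / (1 + (nm y : ℝ)) ^ 5) :=
      ENNReal.ofReal_le_ofReal (hlap y).2
    refine (mul_le_mul' h1 h2).trans ?_
    unfold ww
    rw [← ENNReal.ofReal_mul (by positivity), ← ENNReal.ofReal_mul (by positivity)]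
    apply ENNReal.ofReal_le_ofReal
    have h3 := nm_mul x y
    have e1 : (C1 : ℝ) / (1 + (nm (x - y) : ℝ)) * (C / (1 + (nm y : ℝ)) ^ 5) =
        A / ((1 + (nm (x - y) : ℝ)) * (1 + (nm y : ℝ))) * (1 / (1 + (nm y : ℝ)) ^ 4) := by
      rw [hA]
      have := (hn0 (x - y)).ne'
      have := (hn0 y).ne'
      field_simp
    rw [e1]
    exact mul_le_mul_of_nonneg_right (div_le_div_of_nonneg_left hA0.le (hn0 x) h3)
      (by positivity)
  have hW := ww_sum hCNT
  set S : V3 → ℝ≥0∞ := fun x => ∑' y, Gr x y * H y with hS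
  have hSfin : ∀ x, S x ≠ ⊤ := by
    intro x
    refine ne_top_of_le_ne_top ?_ (ENNReal.tsum_le_tsum (hterm x))
    rw [ENNReal.tsum_mul_left]
    exact ENNReal.mul_ne_top ENNReal.ofReal_ne_top hW
  set v : V3 → ℝ := fun x => (S x).toReal with hv
  have hv0 : ∀ x, 0 ≤ v x := fun x => ENNReal.toReal_nonneg
  have hvS : ∀ x, ENNReal.ofReal (v x) = S x := fun x => ENNReal.ofReal_toReal (hSfin x)
  have hstep : ∀ x, v x = h x + avg v x := by
    intro x
    have h1 := pot_step Q H x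
    have h2 : ∑' z, Q x z * ∑' y, Gk Q z y * H y = ENNReal.ofReal (avg v x) := by
      rw [← hQAV.2.2 v x hv0]
      refine tsum_congr fun z => ?_
      rw [hvS]
    have h3 : S x = ENNReal.ofReal (h x) + ENNReal.ofReal (avg v x) := by
      rw [← h2]
      exact h1
    have h4 : 0 ≤ avg v x := by
      unfold avg
      apply div_nonneg (Finset.sum_nonneg fun i _ => add_nonneg (hv0 _) (hv0 _)) (by norm_num)
    have h5 : v x = (S x).toReal := rfl
    rw [h5, h3, ← ENNReal.ofReal_add (hlap x).1 h4,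
      ENNReal.toReal_ofReal (add_nonneg (hlap x).1 h4)]
  -- the maximum principle
  have hle : ∀ x, ff K x ≤ v x := by
    have hm := hMAX (fun x => ff K x - v x) ∅ 0 le_rfl (fun x _ => by
      rw [avg_sub]
      have h1 := hstep x
      have h2 : h x = ff K x - avg (ff K) x := rfl
      linarith) (fun x hx => absurd hx (Set.notMem_empty x)) (fun δ hδ => by
      refine (ff_fin hCNT K hK δ hδ).subset fun x hx => ?_
      have hx' : δ ≤ ff K x - v x := hx
      change δ ≤ ff K x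
      have := hv0 x
      linarith)
    intro x
    have := hm x
    linarith
  -- the tail
  set c0 : ℝ := 1 / (K + 3) with hc0
  have hc0p : 0 < c0 := by positivity
  have htail := ENNReal.tendsto_tsum_compl_atTop_zero hW
  have hε : (0 : ℝ≥0∞) < ENNReal.ofReal (c0 / (2 * A)) := ENNReal.ofReal_pos.mpr (by positivity)
  obtain ⟨s, hs⟩ := (htail.eventually (gt_mem_nhds hε)).exists
  set B : ℝ≥0∞ := (∑ y ∈ s, 6 ^ (∑ i, (y i).natAbs) * H y) + 1 with hB
  have hBtop : B ≠ ⊤ := by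
    rw [hB]
    refine ENNReal.add_ne_top.mpr ⟨?_, ENNReal.one_ne_top⟩
    refine ENNReal.sum_ne_top.mpr fun y _ => ?_
    exact ENNReal.mul_ne_top (ENNReal.pow_ne_top (by norm_num)) ENNReal.ofReal_ne_top
  have hB0 : B ≠ 0 := by
    rw [hB]
    exact (lt_of_lt_of_le zero_lt_one le_add_self).ne'
  have hmain : ∀ x, ENNReal.ofReal (c0 / 2) / ((1 + nm x : ℕ) : ℝ≥0∞) ≤ Gr x 0 * B := by
    intro x
    have h1 : ENNReal.ofReal (c0 / (1 + (nm x : ℝ))) ≤ S x := by
      rw [← hvS]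
      exact ENNReal.ofReal_le_ofReal ((ff_low K hK x).trans (hle x))
    have h2 : S x = ∑ y ∈ s, Gr x y * H y + ∑' y : {y // y ∉ s}, Gr x y * H y :=
      (ENNReal.sum_add_tsum_compl s (fun y => Gr x y * H y)).symm
    have h3 : ∑' y : {y // y ∉ s}, Gr x y * H y ≤ ENNReal.ofReal (c0 / 2 / (1 + (nm x : ℝ))) := by
      calc ∑' y : {y // y ∉ s}, Gr x y * H y
          ≤ ∑' y : {y // y ∉ s}, ENNReal.ofReal (A / (1 + (nm x : ℝ))) * ww y :=
            ENNReal.tsum_le_tsum fun y => hterm x y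
        _ = ENNReal.ofReal (A / (1 + (nm x : ℝ))) * ∑' y : {y // y ∉ s}, ww y :=
            ENNReal.tsum_mul_left
        _ ≤ ENNReal.ofReal (A / (1 + (nm x : ℝ))) * ENNReal.ofReal (c0 / (2 * A)) :=
            mul_le_mul_right hs.le _
        _ = ENNReal.ofReal (c0 / 2 / (1 + (nm x : ℝ))) := by
            rw [← ENNReal.ofReal_mul (by positivity)]
            congr 1
            have := (hn0 x).ne'
            field_simp
    have h4 : ∑ y ∈ s, Gr x y * H y ≤ Gr x 0 * B := by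
      rw [hB, mul_add, mul_one, Finset.mul_sum]
      refine le_add_right (Finset.sum_le_sum fun y _ => ?_)
      calc Gr x y * H y ≤ (6 ^ (∑ i, (y i).natAbs) * Gr x 0) * H y :=
            mul_le_mul_left (Gr_path hGTR _ y rfl x) _
        _ = Gr x 0 * (6 ^ (∑ i, (y i).natAbs) * H y) := by ring
    have h5 : ENNReal.ofReal (c0 / (1 + (nm x : ℝ))) =
        ENNReal.ofReal (c0 / 2 / (1 + (nm x : ℝ))) +
          ENNReal.ofReal (c0 / 2 / (1 + (nm x : ℝ))) := by
      rw [← ENNReal.ofReal_add (by positivity) (by positivity)]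
      congr 1
      ring
    have h6 : ENNReal.ofReal (c0 / 2 / (1 + (nm x : ℝ))) ≤ Gr x 0 * B := by
      have h7 : ENNReal.ofReal (c0 / 2 / (1 + (nm x : ℝ))) +
          ENNReal.ofReal (c0 / 2 / (1 + (nm x : ℝ))) ≤
          Gr x 0 * B + ENNReal.ofReal (c0 / 2 / (1 + (nm x : ℝ))) := by
        rw [← h5]
        refine h1.trans ?_
        rw [h2]
        exact add_le_add h4 h3
      exact (ENNReal.add_le_add_iff_right ENNReal.ofReal_ne_top).mp h7
    refine le_trans (le_of_eq ?_) h6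
    rw [ENNReal.ofReal_div_of_pos (hn0 x)]
    congr 1
    rw [ENNReal.ofReal_add zero_le_one (Nat.cast_nonneg _), ENNReal.ofReal_one,
      ENNReal.ofReal_natCast]
    push_cast
    rfl
  have hBn : B.toNNReal ≠ 0 := by
    intro h0
    have := ENNReal.coe_toNNReal hBtop
    rw [h0] at this
    exact hB0 this.symm
  refine ⟨(c0 / 2).toNNReal / B.toNNReal, ?_, ?_⟩
  · apply div_pos
    · exact Real.toNNReal_pos.mpr (by positivity)
    · exact pos_iff_ne_zero.mpr hBn
  · intro x y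
    have e1 : Gr x y = Gr (x - y) 0 := by
      have h1 := (hGTR x y (-y)).1
      rw [add_neg_cancel, ← sub_eq_add_neg] at h1
      exact h1.symm
    rw [e1, ENNReal.coe_div hBn, ENNReal.coe_toNNReal hBtop]
    have h2 := hmain (x - y)
    have h3 : (((c0 / 2).toNNReal : ℝ≥0) : ℝ≥0∞) = ENNReal.ofReal (c0 / 2) := rfl
    rw [h3]
    have h4 : ENNReal.ofReal (c0 / 2) / B / ((1 + nm (x - y) : ℕ) : ℝ≥0∞) =
        ENNReal.ofReal (c0 / 2) / ((1 + nm (x - y) : ℕ) : ℝ≥0∞) / B := by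
      generalize ENNReal.ofReal (c0 / 2) = a
      simp only [div_eq_mul_inv]
      rw [mul_right_comm]
    rw [h4]
    exact ENNReal.div_le_of_le_mul h2

end Pool.Agent.H74.LP
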